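import Pool.Agent.Results.MP_44a246_nt.OneExceptionalSet
import Pool.Agent.V11326.WF

/-!
# The truncated Vojta inequality with discriminant term for ALL points, of whatever height, whose conductors lie in windows

Let `K` be a number field and `a_1, …, a_q` distinct elements of `K`, `q ≥ 3`. For `x ∈ K` let `N(x)` be the truncated
counting function of `x` with respect to `[a_1] + … + [a_q]`, so that `exp N(x)` is the conductor of `x` (a natural
number). There are `X ^ (2 / q + o(1))` elements with `exp N(x) ≤ X`, of all heights. Let `v_n ≥ 1` be a sequence, for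
example `v_n = 2 ^ n`. For all vectors `β ∈ ℝ ^ m` outside a set `F` of small Hausdorff dimension, and of measure zero if
the windows are short, ALL tuples `x = (x_1, …, x_m)` of elements of `K` with
`|exp (2 N(x_i) / q) - β_i v_n| ≤ v_n ^ θ` for all `i`, for some `n`, have the following property.

Let `k` be a number field containing `K`. For `i = 1, …, m` let `A_i` be a Dedekind domain, finite over `k[t]` and
containing it (the ring of functions of a smooth affine curve over `k` which is finite over the `t`-line), of rank `N_i`,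
let `D_{i j}` be the closed subset `y_{i j 1} = ⋯ = y_{i j u_{i j}} = 0` and `I_{i j} ≠ 0` an ideal of `A_i` such that
`D_{i j}` and the zeros of `I_{i j}` together contain the fibre over `a_j`. Let `G` be a set of pairs `(i, l)` with
`i < l`, and `S` a finite set of primes of `k`. Then, with a constant `c` depending on these data and on `β`, all points
`P` of the product of the curves over `x` and all number fields `L ⊇ k` over which `P` is defined satisfy
`∑_i (q - (∑_j dim (A_i / I_{i j})) / N_i - κ) h(x_i) + ∑_{(i, l) ∈ G} (h(x_i) + h(x_l))`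
`≤ N_S^{(1)}(D, P) + d(L) + c`, where `D` consists of the `D_{i j}` and the divisors `t_i = t_l` for `(i, l) ∈ G`. The
left hand side is `h_{K_V + D}(P) + (2 - κ) ∑_i h(x_i)`.

The proof combines the starting result `OneExceptionalSet` with a covering argument in `ℝ ^ m`. The definitions of
`counting`, `truncated`, `logDisc`, `degree`, `height`, `coord` are those of that file.
-/

set_option autoImplicit false

namespace Pool.Agent.Results.MP_44a246_nt.ConductorWindows

open Polynomial IsDedekindDomain NumberField MeasureTheory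
open Pool.Agent.Results.MP_44a246_nt.OneExceptionalSet

/-- The exponent of convergence of the sequence `v` is at most `τ`: the sum of the `v_n ^ (-p)` converges for all
`p > τ`. -/
def ExpLe (v : ℕ → ℝ) (τ : ℝ) : Prop := ∀ p : ℝ, τ < p → Summable fun n => (v n) ^ (-p)

/-- The `m`-tuples of elements of `K`, different from the `a_j`, such that the conductors `exp N(x_i)` satisfy
`|(exp N(x_i)) ^ (2 / q) - β_i w| ≤ w ^ θ` for all `i`. -/
def Window {K : Type} [Field K] [NumberField K] {q m : ℕ} (a : Fin q → K) (β : Fin m → ℝ) (w θ : ℝ) :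
    Set (Fin m → K) :=
  {x | (∀ i j, x i ≠ a j) ∧ ∀ i, |Real.exp (2 / (q : ℝ) * counting a (x i)) - β i * w| ≤ w ^ θ}

open Classical in
theorem truncated_nonneg {K k : Type} [Field K] [Field k] [NumberField k] {m q : ℕ}
    {A : Fin m → Type} [∀ i, CommRing (A i)] [∀ i, Algebra k (A i)] [∀ i, Algebra k[X] (A i)]
    (S : Finset (HeightOneSpectrum (𝓞 k))) (a : Fin q → K) (u : Fin m → Fin q → ℕ)
    (y : ∀ i j, Fin (u i j) → A i) (G : Finset (Fin m × Fin m)) {L : Type} [Field L]
    [NumberField L] [Algebra K L] [Algebra k L] (φ : ∀ i, A i →ₐ[k] L) : 0 ≤ truncated S a u y G φ := by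
  unfold truncated
  refine div_nonneg (finsum_nonneg fun w => ?_) (Nat.cast_nonneg _)
  split_ifs with h
  · exact Real.log_natCast_nonneg _
  · exact le_refl _

theorem logDisc_nonneg (L : Type) [Field L] [NumberField L] : 0 ≤ logDisc L := by
  unfold logDisc
  refine div_nonneg (Real.log_nonneg ?_) (Nat.cast_nonneg _)
  have h := Int.one_le_abs (NumberField.discr_ne_zero L)
  exact_mod_cast h

theorem result (K : Type) [Field K] [NumberField K] (q : ℕ) (hq : 3 ≤ q) (a : Fin q → K)
    (ha : Function.Injective a) (m : ℕ) (hm : 0 < m) (κ : ℝ) (hκ : 0 < κ) :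
    ∃ ν : ℝ, 0 < ν ∧ ν ≤ m ∧ ∀ (v : ℕ → ℝ) (τ θ : ℝ), (∀ n, 1 ≤ v n) → 0 ≤ τ → ExpLe v τ → θ < 1 →
      ∃ F : Set (Fin m → ℝ), dimH F ≤ ENNReal.ofReal (((m : ℝ) - ν + τ) / (1 - θ)) ∧
        (τ + m * θ < ν → volume F = 0) ∧
        ∀ β : Fin m → ℝ, β ∉ F →
        ∀ (k : Type) [Field k] [NumberField k] [Algebra K k] (A : Fin m → Type)
        [∀ i, CommRing (A i)] [∀ i, IsDedekindDomain (A i)] [∀ i, Algebra k (A i)]
        [∀ i, Algebra k[X] (A i)] [∀ i, IsScalarTower k k[X] (A i)]
        [∀ i, Module.Finite k[X] (A i)] [∀ i, FaithfulSMul k[X] (A i)]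
        (u : Fin m → Fin q → ℕ) (y : ∀ i j, Fin (u i j) → A i) (I : ∀ i, Fin q → Ideal (A i)),
        (∀ i j, I i j ≠ ⊥) →
        (∀ i j l, ∀ e ∈ I i j, y i j l * e ∈
          (Ideal.span {coord k (A i) - algebraMap k (A i) (algebraMap K k (a j))}).radical) →
        ∀ G : Finset (Fin m × Fin m), (∀ p ∈ G, p.1 < p.2) →
        ∀ S : Finset (HeightOneSpectrum (𝓞 k)), ∃ c : ℝ,
          ∀ n : ℕ, ∀ x ∈ Window a β (v n) θ,
          ∀ (L : Type) [Field L] [NumberField L] [Algebra K L] [Algebra k L]
            [IsScalarTower K k L] (φ : ∀ i, A i →ₐ[k] L),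
            (∀ i, φ i (coord k (A i)) = algebraMap K L (x i)) →
            ∑ i, (degree k (I i) - κ) * height (x i) +
                ∑ p ∈ G, (height (x p.1) + height (x p.2)) ≤
              truncated S a u y G φ + logDisc L + c := by
  obtain ⟨h1, h2⟩ := OneExceptionalSet.result K q hq a ha m hm
  obtain ⟨C1, hC1⟩ := (h1 1 one_pos).1
  obtain ⟨E, ⟨ν, C, hν, -, hC⟩, -, hE⟩ := h2 κ hκ
  have hset : ∀ X : ℝ, {x : Fin m → K | (∀ i j, x i ≠ a j) ∧ ∀ i, counting a (x i) ≤ Real.log X} = Tuples m a X := by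
    intro X
    ext x
    exact ⟨fun h i => ⟨h.1 i, h.2 i⟩, fun h => ⟨fun i => (h i).1, fun i => (h i).2⟩⟩
  have hfin : ∀ X : ℝ, 1 ≤ X →
      {x : Fin m → K | (∀ i j, x i ≠ a j) ∧ ∀ i, counting a (x i) ≤ Real.log X}.Finite := by
    intro X hX
    rw [hset]
    exact (hC1 X hX).1
  have hq0 : 0 < q := by omega
  have hqr : (0 : ℝ) < q := by exact_mod_cast hq0
  obtain ⟨ν', hν', hνm, hmain⟩ := Pool.Agent.V11326.WO.tuples hq0 hm E (fun x : Fin m → K => ∀ i j, x i ≠ a j)
    (fun x => counting a x) hν hfin (C := C) (fun X hX => by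
      rw [hset]
      exact hC X hX)
  refine ⟨ν', hν', hνm, fun v τ θ hv hτ hvτ hθ => ?_⟩
  obtain ⟨F, hF, hF0, h3⟩ := hmain v τ θ hv hτ hvτ hθ
  refine ⟨F, hF, hF0, fun β hβ => ?_⟩
  obtain ⟨n₀, hn⟩ := h3 β hβ
  intro k _ _ _ A _ _ _ _ _ _ _ u y I hI hyI G hG S
  obtain ⟨c, hc⟩ := hE k A u y I hI hyI G hG S
  obtain ⟨c', hcc, hc'⟩ := Pool.Agent.V11326.WF.absorb (fun n => Window a β (v n) θ)
    (fun n => Pool.Agent.V11326.WF.window_finite (fun x : Fin m → K => ∀ i j, x i ≠ a j) (fun x => counting a x)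
      (e := 2 / (q : ℝ)) (by positivity) hfin β (v n) ((v n) ^ θ))
    (fun x => ∑ i, (degree k (I i) - κ) * height (x i) + ∑ p ∈ G, (height (x p.1) + height (x p.2))) n₀ c
  refine ⟨c', fun n x hx L _ _ _ _ _ φ hφ => ?_⟩
  rcases lt_or_ge n n₀ with hnn | hnn
  · have h4 := hc' n hnn x hx
    have h5 := truncated_nonneg S a u y G φ
    have h6 := logDisc_nonneg L
    linarith
  · have h4 := hc x (hn n hnn x hx.1 hx.2) hx.1 L φ hφ
    linarith

end Pool.Agent.Results.MP_44a246_nt.ConductorWindows
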