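import Pool.Agent.Helper203.AC.Red
import Pool.Agent.Helper203.AC.Pairs
import Pool.Agent.H107.MetricFam

/-!
# The truncated Vojta inequality with discriminant term near almost every point

For the points `P` of all curves over the rational line (finite maps `t : X → ℙ¹` over `ℚ`, the
divisor `D` over `q` rational points, as in the hand-in `AllCurves`) for which `x = t(P)` is of
degree `r` over `ℚ` and close to a given point `z`.
-/

set_option autoImplicit false

namespace Pool.Agent.Results.MP_44a246_nt.CurvesNearPoints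

open Polynomial IntermediateField IsDedekindDomain NumberField MeasureTheory
open Pool.Agent.Results.MP_44a246_nt.AllCurves

/-- For all curves with finite map `t` to the line, divisors `D` over `q` rational points `a_j` and
finite sets `S` of primes there is a constant `C` such that all points `P` of the curve for which
`x = t(P)` is of degree `r` over `ℚ` and `dist (φ x) z ≤ exp (- σ h(x))`, and all number fields `L`
over which `P` is defined satisfy
`(q - κ - (∑_j dim (A / E_j)) / N) h(x) ≤ N_S^{(1)}(D, P) / [L : ℚ] + d(L) + C`. -/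
def Near (r q : ℕ) (κ σ : ℝ) {M : Type} [MetricSpace M] (φ : ℂ → M) (z : M) : Prop :=
  ∀ (A : Type) [CommRing A] [IsDedekindDomain A] [Algebra ℚ A] [Algebra ℚ[X] A]
    [IsScalarTower ℚ ℚ[X] A] [Module.Finite ℚ[X] A] [FaithfulSMul ℚ[X] A]
    (a : Fin q → ℚ), Function.Injective a →
  ∀ (u : Fin q → ℕ) (y : ∀ j, Fin (u j) → A) (E : Fin q → Ideal A), (∀ j, E j ≠ ⊥) →
  (∀ j i, ∀ e ∈ E j,
    y j i * e ∈ (Ideal.span {coord A - algebraMap ℚ[X] A (C (a j))}).radical) →
  ∀ S : Finset ℕ, (∀ p ∈ S, p.Prime) → ∃ C : ℝ,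
  ∀ (f : ℤ[X]) (x : ℂ), Irreducible f → f.natDegree = r → aeval x f = 0 →
    dist (φ x) z ≤ Real.exp (-σ * height f) →
  ∀ (L : IntermediateField ℚ ℂ) (_ : NumberField L) (ψ : A →+* L), (ψ (coord A) : ℂ) = x →
    (degree E - κ) * height f ≤ truncated S a u y L ψ + logDisc L + C

lemma height_nonneg {f : ℤ[X]} (hf : Irreducible f) : 0 ≤ height f := by
  unfold height
  exact div_nonneg (Real.log_nonneg (one_le_mahlerMeasure_of_ne_zero hf.ne_zero)) (Nat.cast_nonneg _)

lemma truncated_nonneg {A : Type} [CommRing A] [Algebra ℚ[X] A] {q : ℕ} (S : Finset ℕ)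
    (a : Fin q → ℚ) (u : Fin q → ℕ) (y : ∀ j, Fin (u j) → A)
    (L : IntermediateField ℚ ℂ) [NumberField L] (ψ : A →+* L) : 0 ≤ truncated S a u y L ψ := by
  unfold truncated
  refine div_nonneg (finsum_nonneg fun v => ?_) (Nat.cast_nonneg _)
  split_ifs
  · exact Real.log_natCast_nonneg _
  · exact le_rfl

lemma logDisc_nonneg (L : IntermediateField ℚ ℂ) [NumberField L] : 0 ≤ logDisc L := by
  unfold logDisc
  refine div_nonneg (Real.log_nonneg ?_) (Nat.cast_nonneg _)
  have h := Int.one_le_abs (NumberField.discr_ne_zero L)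
  exact_mod_cast h

/-- the size of a pair -/
noncomputable def size (t : ℤ[X] × ℂ) : ℝ := max 1 (Real.exp (height t.1))

/-- the index set: the points, the primes and the constant -/
abbrev J (q : ℕ) := (Fin q → ℚ) × Finset ℕ × ℕ

/-- the exceptional pairs for the line -/
def Bad (r q : ℕ) (κ : ℝ) (j : J q) : Set (ℤ[X] × ℂ) :=
  {t | Function.Injective j.1 ∧ (∀ p ∈ j.2.1, p.Prime) ∧ Irreducible t.1 ∧ t.1.natDegree = r ∧
    aeval t.2 t.1 = 0 ∧
    Pool.Agent.W223.VD.Points.truncated j.2.1 (fun i => Pool.Agent.W223.AC.pt (j.1 i)) t.2 +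
      Pool.Agent.W223.VD.Points.logDisc t.2 + (-(j.2.2 : ℝ)) <
      (q - κ) * Pool.Agent.W223.VD.Points.height t.1}

theorem main (η : ℝ) (hη : 0 < η) : ∃ c : ℝ, 1 ≤ c ∧
    ∀ (r q : ℕ), 2 ≤ r → 3 ≤ q → ∀ κ σ : ℝ, κ ≤ q → 0 < σ →
    ∀ (M : Type) [MetricSpace M] (φ : ℂ → M), ∃ E' : Set M,
      dimH E' ≤ ENNReal.ofReal ((r : ℝ) * exponent (alpha r c η) r q κ / σ) ∧
      ∀ z ∉ E', Near r q κ σ φ z := by
  obtain ⟨c, hc, hα⟩ := Pool.Agent.W223.VD.Points.result η hη
  refine ⟨c, hc, ?_⟩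
  intro r q hr hq κ σ hκ hσ M _ φ
  have hα1 := one_le_alpha hr hc hη
  have hr0 : (0 : ℝ) < r := by exact_mod_cast (show 0 < r by omega)
  set α := alpha r c η with hαd
  have hεk : ∀ k : ℕ, (0 : ℝ) < 1 / ((k : ℝ) + 1) := fun k => by positivity
  have hκk : ∀ k : ℕ, κ - 1 / ((k : ℝ) + 1) ≤ q := fun k => by
    have := hεk k
    linarith
  have hs : ∀ k : ℕ, 0 ≤ (r : ℝ) * exponent α r q (κ - 1 / ((k : ℝ) + 1)) := fun k =>
    mul_nonneg hr0.le (exponent_nonneg hα1 hr hq (hκk k))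
  have hfam : ∀ k : ℕ, ∃ E : Set M,
      dimH E ≤ ENNReal.ofReal ((r : ℝ) * exponent α r q (κ - 1 / ((k : ℝ) + 1)) / σ) ∧
      ∀ z ∉ E, ∀ j : J q, {t | t ∈ Bad r q (κ - 1 / ((k : ℝ) + 1)) j ∧
        dist (φ t.2) z ≤ (size t) ^ (-σ)}.Finite := by
    intro k
    refine Pool.Agent.H107.ME.dim_family (fun t : ℤ[X] × ℂ => φ t.2) size
      (fun t => le_max_left _ _) (hs k) hσ (Bad r q (κ - 1 / ((k : ℝ) + 1))) ?_
    intro j ε hε
    by_cases hj : Function.Injective j.1 ∧ (∀ p ∈ j.2.1, p.Prime)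
    · obtain ⟨hj1, hj2⟩ := hj
      have hP : ∀ i, IsCoprime (Pool.Agent.W223.AC.pt (j.1 i)).1 (Pool.Agent.W223.AC.pt (j.1 i)).2 :=
        fun i => Pool.Agent.W223.AC.pt_coprime (j.1 i)
      have hPP : ∀ i i', i ≠ i' →
          (Pool.Agent.W223.AC.pt (j.1 i)).1 * (Pool.Agent.W223.AC.pt (j.1 i')).2 ≠
          (Pool.Agent.W223.AC.pt (j.1 i')).1 * (Pool.Agent.W223.AC.pt (j.1 i)).2 := fun i i' hij =>
        Pool.Agent.W223.AC.pt_inj fun h => hij (hj1 h)
      obtain ⟨C, hC⟩ := hα r q hr hq (fun i => Pool.Agent.W223.AC.pt (j.1 i)) hP hPP j.2.1 hj2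
        (κ - 1 / ((k : ℝ) + 1)) (-(j.2.2 : ℝ)) ε (hκk k) hε
      refine ⟨2 * C, fun X hX => ?_⟩
      obtain ⟨h1, h2⟩ := hC X hX
      obtain ⟨p1, p2⟩ := Pool.Agent.Helper203.AC.pairs r (by omega) _ h1
      have hsub : {t | t ∈ Bad r q (κ - 1 / ((k : ℝ) + 1)) j ∧ size t ≤ X} ⊆
          {t : ℤ[X] × ℂ | Irreducible t.1 ∧ t.1.natDegree = r ∧ aeval t.2 t.1 = 0 ∧ t.2 ∈
            Pool.Agent.W223.VD.Points.exceptional j.2.1
              (fun i => Pool.Agent.W223.AC.pt (j.1 i)) r (κ - 1 / ((k : ℝ) + 1))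
              (-(j.2.2 : ℝ)) X} := by
        rintro t ⟨⟨g1, g2, g3, g4, g5, g6⟩, g7⟩
        refine ⟨g3, g4, g5, t.1, g3, g4, g5, ?_, g6⟩
        rw [Real.le_log_iff_exp_le (by linarith)]
        exact (le_max_right _ _).trans g7
      refine ⟨p1.subset hsub, ?_⟩
      have h3 : ({t | t ∈ Bad r q (κ - 1 / ((k : ℝ) + 1)) j ∧ size t ≤ X}.ncard : ℝ) ≤
          2 * ((Pool.Agent.W223.VD.Points.exceptional j.2.1
              (fun i => Pool.Agent.W223.AC.pt (j.1 i)) r (κ - 1 / ((k : ℝ) + 1))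
              (-(j.2.2 : ℝ)) X).ncard : ℝ) := by
        exact_mod_cast (Set.ncard_le_ncard hsub p1).trans p2
      refine h3.trans ?_
      rw [mul_assoc]
      exact mul_le_mul_of_nonneg_left h2 (by norm_num)
    · refine ⟨0, fun X _ => ?_⟩
      have he : {t | t ∈ Bad r q (κ - 1 / ((k : ℝ) + 1)) j ∧ size t ≤ X} = ∅ := by
        ext t
        refine ⟨?_, fun h => h.elim⟩
        rintro ⟨⟨g1, g2, -⟩, -⟩
        exact (hj ⟨g1, g2⟩).elim
      rw [he]
      simp
  choose E hE1 hE2 using hfam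
  refine ⟨⋂ k, E k, ?_, ?_⟩
  · have hle : ∀ k : ℕ, dimH (⋂ k, E k) ≤
        ENNReal.ofReal ((r : ℝ) * (exponent α r q κ + α * (1 / ((k : ℝ) + 1))) / σ) := by
      intro k
      refine (dimH_mono (Set.iInter_subset _ k)).trans ((hE1 k).trans ?_)
      refine ENNReal.ofReal_le_ofReal ?_
      refine div_le_div_of_nonneg_right ?_ hσ.le
      exact mul_le_mul_of_nonneg_left (exponent_sub hα1 hr hq κ _ (hεk k).le) hr0.le
    have ht : Filter.Tendsto (fun k : ℕ =>
        ENNReal.ofReal ((r : ℝ) * (exponent α r q κ + α * (1 / ((k : ℝ) + 1))) / σ)) Filter.atTop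
        (nhds (ENNReal.ofReal ((r : ℝ) * (exponent α r q κ + α * 0) / σ))) := by
      refine ENNReal.tendsto_ofReal (Filter.Tendsto.div_const ?_ σ)
      exact ((tendsto_one_div_add_atTop_nhds_zero_nat.const_mul α).const_add _).const_mul _
    have := ge_of_tendsto' ht hle
    rw [mul_zero, add_zero] at this
    exact this
  · intro z hz
    rw [Set.mem_iInter, not_forall] at hz
    obtain ⟨k, hk⟩ := hz
    intro A _ _ _ _ _ _ _ a ha u y EE hEE hyE S hS
    obtain ⟨S', C₁, F, hS', hF, hred⟩ := Pool.Agent.Helper203.AC.reduce A r q hr hq a u y EE hEE hyE S hS κ 0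
      (1 / ((k : ℝ) + 1)) (hεk k)
    obtain ⟨n, hn⟩ := exists_nat_ge (-C₁)
    have hfin1 := hE2 k z hk (a, S', n)
    obtain ⟨hfin2, -⟩ := Pool.Agent.Helper203.AC.pairs r (by omega : 0 < r) F hF
    obtain ⟨C, hC⟩ := ((hfin1.union hfin2).image
      (fun t : ℤ[X] × ℂ => (degree EE - κ) * height t.1)).bddAbove
    refine ⟨max C 0, ?_⟩
    intro f x hf hd hx hdist L hL ψ hψ
    have hT := truncated_nonneg S a u y L ψ
    have hD := logDisc_nonneg L
    by_contra hcon
    rw [not_le] at hcon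
    have hm0 := le_max_right C 0
    have hm1 := le_max_left C 0
    have hnot : ¬ (degree EE - κ) * height f ≤ C := fun g => by linarith
    apply hnot
    apply hC
    refine ⟨(f, x), ?_, rfl⟩
    by_cases hxF : x ∈ F
    · exact Or.inr ⟨hf, hd, hx, hxF⟩
    · left
      have h1 := hred x f hf hd hx hxF L hL ψ hψ (by linarith)
      refine ⟨⟨ha, hS', hf, hd, hx, ?_⟩, ?_⟩
      · simp only
        linarith
      · have h2 : size (f, x) = Real.exp (height f) :=
          max_eq_right (Real.one_le_exp (height_nonneg hf))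
        rw [h2, ← Real.exp_mul]
        refine hdist.trans_eq ?_
        congr 1
        ring

lemma Near.mono {r q : ℕ} {κ κ' σ σ' : ℝ} {M : Type} [MetricSpace M] {φ : ℂ → M} {z : M}
    (h : Near r q κ' σ' φ z) (hκ : κ' ≤ κ) (hσ : σ' ≤ σ) : Near r q κ σ φ z := by
  intro A _ _ _ _ _ _ _ a ha u y E hE hyE S hS
  obtain ⟨C, hC⟩ := h A a ha u y E hE hyE S hS
  refine ⟨C, fun f x hf hd hx hdist L hL ψ hψ => ?_⟩
  have h0 := height_nonneg hf
  have h1 : (degree E - κ) * height f ≤ (degree E - κ') * height f :=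
    mul_le_mul_of_nonneg_right (by linarith) h0
  refine h1.trans (hC f x hf hd hx (hdist.trans ?_) L hL ψ hψ)
  refine Real.exp_le_exp.2 ?_
  have := mul_le_mul_of_nonneg_right hσ h0
  linarith

/-- a set of complex numbers of dimension less than `1` has null intersection with the real line -/
lemma null_of_dim {E : Set ℂ} {d : ℝ} (h : dimH E ≤ ENNReal.ofReal d) (hd : d < 1) :
    volume {z : ℝ | (z : ℂ) ∈ E} = 0 := by
  rw [← hausdorffMeasure_real]
  refine hausdorffMeasure_of_dimH_lt (d := 1) ?_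
  have h1 : dimH {z : ℝ | (z : ℂ) ∈ E} ≤ dimH E := by
    rw [← Complex.isometry_ofReal.dimH_image]
    refine dimH_mono ?_
    rintro _ ⟨z, hz, rfl⟩
    exact hz
  have g2 := (ENNReal.ofReal_lt_one).2 hd
  simpa using h1.trans_lt (h.trans_lt g2)

/-- **The truncated Vojta inequality with discriminant near almost every point.** Let `η > 0`. There
is `c ≥ 1` such that the following holds.

(1) Let `r ≥ 2`, `q ≥ 3`, `κ ≤ q`, `σ > 0` and let `φ` be a map from `ℂ` to a metric space `M`. There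
is a subset `E'` of `M` of Hausdorff dimension at most `r * exponent (alpha r c η) r q κ / σ` such
that for all `z` outside `E'`, all curves with finite map `t` to the line, divisors over `q` rational
points and finite sets of primes the inequality of `Near` holds, with a constant, for all points `P`
for which `x = t(P)` is of degree `r` and `dist (φ x) z ≤ exp (- σ h(x))`.

(2) For every map `φ : ℂ → ℂ` and almost all real `z` the same holds for all `r ≥ 2`, `q ≥ 3`,
`κ ≤ q` and `σ > r * exponent (alpha r c η) r q κ`.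

(3) For `r = 2`, `q = 3` and all `κ` with `2 < κ ≤ 3` the same holds with `σ = 3 / 2`. -/
theorem result : ∀ η : ℝ, 0 < η → ∃ c : ℝ, 1 ≤ c ∧
    (∀ (r q : ℕ), 2 ≤ r → 3 ≤ q → ∀ κ σ : ℝ, κ ≤ q → 0 < σ →
      ∀ (M : Type) [MetricSpace M] (φ : ℂ → M), ∃ E' : Set M,
        dimH E' ≤ ENNReal.ofReal ((r : ℝ) * exponent (alpha r c η) r q κ / σ) ∧
        ∀ z ∉ E', Near r q κ σ φ z) ∧
    (∀ φ : ℂ → ℂ, ∀ᵐ z : ℝ, ∀ (r q : ℕ), 2 ≤ r → 3 ≤ q → ∀ κ σ : ℝ, κ ≤ q →
      (r : ℝ) * exponent (alpha r c η) r q κ < σ → Near r q κ σ φ (z : ℂ)) ∧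
    (∀ φ : ℂ → ℂ, ∀ᵐ z : ℝ, ∀ κ : ℝ, 2 < κ → κ ≤ 3 → Near 2 3 κ (3 / 2) φ (z : ℂ)) := by
  intro η hη
  obtain ⟨c, hc, hmain⟩ := main η hη
  have hpart2 : ∀ φ : ℂ → ℂ, ∀ᵐ z : ℝ, ∀ (r q : ℕ), 2 ≤ r → 3 ≤ q → ∀ κ σ : ℝ, κ ≤ q →
      (r : ℝ) * exponent (alpha r c η) r q κ < σ → Near r q κ σ φ (z : ℂ) := by
    intro φ
    have hae : ∀ r q : ℕ, ∀ κ σ : ℚ, ∀ᵐ z : ℝ, 2 ≤ r → 3 ≤ q → (κ : ℝ) ≤ q →
        (r : ℝ) * exponent (alpha r c η) r q κ < σ → Near r q κ σ φ (z : ℂ) := by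
      intro r q κ σ
      by_cases hcond : 2 ≤ r ∧ 3 ≤ q ∧ (κ : ℝ) ≤ q ∧ (r : ℝ) * exponent (alpha r c η) r q κ < σ
      · obtain ⟨hr, hq, hκ, hσ⟩ := hcond
        have h0 : 0 ≤ (r : ℝ) * exponent (alpha r c η) r q κ :=
          mul_nonneg (Nat.cast_nonneg _) (exponent_nonneg (one_le_alpha hr hc hη) hr hq hκ)
        have hσ0 : (0 : ℝ) < σ := lt_of_le_of_lt h0 hσ
        obtain ⟨E, hE1, hE2⟩ := hmain r q hr hq κ σ hκ hσ0 ℂ φ
        have hn := null_of_dim hE1 (by rw [div_lt_one hσ0]; exact hσ)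
        filter_upwards [compl_mem_ae_iff.2 hn] with z hz _ _ _ _
        exact hE2 z hz
      · refine Filter.Eventually.of_forall fun z h1 h2 h3 h4 => ?_
        exact (hcond ⟨h1, h2, h3, h4⟩).elim
    have hall : ∀ᵐ z : ℝ, ∀ r q : ℕ, ∀ κ σ : ℚ, 2 ≤ r → 3 ≤ q → (κ : ℝ) ≤ q →
        (r : ℝ) * exponent (alpha r c η) r q κ < σ → Near r q κ σ φ (z : ℂ) := by
      simp only [ae_all_iff] at hae ⊢
      exact fun r q κ σ => by
        have := hae r q κ σ
        exact this
    filter_upwards [hall] with z hz r q hr hq κ σ hκ hσ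
    have hα1 := one_le_alpha hr hc hη
    have hr0 : (0 : ℝ) < r := by exact_mod_cast (show 0 < r by omega)
    have hα0 : (0 : ℝ) < alpha r c η := by linarith
    set g := σ - (r : ℝ) * exponent (alpha r c η) r q κ with hg
    have hg0 : 0 < g := by linarith
    have hrα : 0 < (r : ℝ) * alpha r c η := by positivity
    obtain ⟨κ', h1, h2⟩ := exists_rat_btwn (show κ - g / (2 * (r * alpha r c η)) < κ by
      have : 0 < g / (2 * (r * alpha r c η)) := by positivity
      linarith)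
    have h3 := exponent_sub hα1 hr hq κ (κ - κ') (by linarith)
    rw [sub_sub_cancel] at h3
    have h4 : (r : ℝ) * exponent (alpha r c η) r q κ' < σ := by
      have h5 := mul_le_mul_of_nonneg_left h3 hr0.le
      have h6 : (r : ℝ) * (alpha r c η * (κ - κ')) < g := by
        have h7 : κ - κ' < g / (2 * (r * alpha r c η)) := by linarith
        have h8 := mul_lt_mul_of_pos_left h7 hrα
        have h9 : (r : ℝ) * alpha r c η * (g / (2 * (r * alpha r c η))) = g / 2 := by
          field_simp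
        rw [h9] at h8
        linarith
      rw [mul_add] at h5
      linarith
    obtain ⟨σ', h5, h6⟩ := exists_rat_btwn h4
    exact (hz r q κ' σ' hr hq (by linarith) h5).mono h2.le h6.le
  refine ⟨c, hc, hmain, hpart2, ?_⟩
  intro φ
  filter_upwards [hpart2 φ] with z hz κ hκ2 hκ3
  refine hz 2 3 le_rfl le_rfl κ (3 / 2) (by exact_mod_cast hκ3) ?_
  have h1 : exponent (alpha 2 c η) 2 3 κ ≤ 3 * (3 - κ) / 4 := by
    have ha : alpha 2 c η = 1 := by
      refine le_antisymm ?_ (one_le_alpha le_rfl hc hη)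
      unfold alpha
      refine (min_le_left _ _).trans ?_
      norm_num
    rw [ha]
    unfold exponent
    refine (min_le_right _ _).trans (le_of_eq ?_)
    norm_num
  push_cast
  linarith

end Pool.Agent.Results.MP_44a246_nt.CurvesNearPoints
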