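import Mathlib
import Pool.Agent.Results.MP_44a246_nt.QuadraticPoints
import Pool.Agent.V11001.KM.Family

/-!
# Vojta's truncated inequality for the quadratic numbers with heights near the powers of almost every real number

`X` is the projective line over `ℚ`, `D = 0 + 1 + ∞`, `S` the archimedean place, `r = 2`. Let `lam n` be real numbers
with `lam n / log n → ∞`, for example `lam n = n` or `lam n = n !`. For almost every real `x > 1` and all `κ > 0` ALL
quadratic numbers `y` with `|H(y) - x ^ (lam n)| ≤ x ^ ((1 - 2 κ) lam n)` for some `n` satisfy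
`κ h(y) ≤ N^(1)(D, y) + d(y) + C`; for example `κ = 1`.
-/

set_option autoImplicit false

namespace Pool.Agent.Results.MP_44a246_nt.HeightsNearPowers

open NumberField IsDedekindDomain IntermediateField Filter
open Pool.Agent.Results.MP_44a246_nt.QuadraticPoints (counting logDisc height Points numberField_adjoin)

lemma height_nonneg (x : AlgebraicClosure ℚ) : 0 ≤ height x := by
  haveI := numberField_adjoin x
  unfold Pool.Agent.Results.MP_44a246_nt.QuadraticPoints.height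
  exact div_nonneg (Height.zero_le_logHeight₁ _) (Nat.cast_nonneg _)

/-- the quadratic numbers with `N^(1)(D, y) + d(y) ≤ κ h(y) + c` -/
def Fam (κ c : ℝ) : Set (AlgebraicClosure ℚ) :=
  {y | Module.finrank ℚ ℚ⟮y⟯ = 2 ∧ counting y + logDisc y ≤ κ * height y + c}

lemma count : ∃ δ : ℝ, 0 < δ ∧ δ ≤ 1 ∧ ∀ κ : ℝ, 0 < κ → ∀ c : ℝ, 0 ≤ c → ∀ ε : ℝ, 0 < ε →
    ∃ C : ℝ, ∀ X : ℝ, 1 ≤ X → {x | x ∈ Fam κ c ∧ Real.exp (height x) ≤ X}.Finite ∧
      ({x | x ∈ Fam κ c ∧ Real.exp (height x) ≤ X}.ncard : ℝ) ≤ C * X ^ ((2 - δ) * κ + ε) := by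
  obtain ⟨δ, hδ, C, hC⟩ := Pool.Agent.Results.MP_44a246_nt.QuadraticPoints.result 2
  refine ⟨min δ 1, lt_min hδ one_pos, min_le_right _ _, fun κ hκ c hc ε hε => ?_⟩
  set δ' : ℝ := min δ 1 with hδ'
  have hδ2 : δ' ≤ δ := min_le_left _ _
  have hδ1 : δ' ≤ 1 := min_le_right _ _
  set A : ℝ := c + 1 + 1 / κ with hA
  have hA1 : 1 ≤ A := by
    have : 0 < 1 / κ := by positivity
    linarith
  have hA2 : 1 / κ ≤ A := by linarith
  refine ⟨max C 0 * Real.exp ((2 - δ') * A), fun X hX => ?_⟩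
  have hX0 : 0 < X := by linarith
  have hlog : 0 ≤ Real.log X := Real.log_nonneg hX
  set T : ℝ := κ * Real.log X + A with hT
  have hκl : 0 ≤ κ * Real.log X := mul_nonneg hκ.le hlog
  have hT1 : 1 ≤ T := by linarith
  have hT2 : 1 / κ ≤ T := by linarith
  have hT3 : Real.log X ≤ T ^ (2 : ℝ) := by
    have h1 : Real.log X ≤ T / κ := by
      rw [le_div_iff₀ hκ]
      linarith
    have h2 : T / κ ≤ T * T := by
      rw [div_eq_mul_one_div]
      exact mul_le_mul_of_nonneg_left hT2 (by linarith)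
    rw [Real.rpow_two]
    nlinarith
  obtain ⟨h1, h2⟩ := hC T hT1
  have hsub : {x | x ∈ Fam κ c ∧ Real.exp (height x) ≤ X} ⊆ Points T (T ^ (2 : ℝ)) := by
    rintro x ⟨⟨g1, g2⟩, g3⟩
    have g4 : height x ≤ Real.log X := (Real.le_log_iff_exp_le hX0).2 g3
    refine ⟨g1, ?_, g4.trans hT3⟩
    have g5 : κ * height x ≤ κ * Real.log X := mul_le_mul_of_nonneg_left g4 hκ.le
    have g6 : 0 < 1 / κ := by positivity
    linarith
  refine ⟨h1.subset hsub, ?_⟩
  have h3 : ({x | x ∈ Fam κ c ∧ Real.exp (height x) ≤ X}.ncard : ℝ) ≤ C * Real.exp ((2 - δ) * T) :=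
    (Nat.cast_le.2 (Set.ncard_le_ncard hsub h1)).trans h2
  have h4 : C * Real.exp ((2 - δ) * T) ≤ max C 0 * Real.exp ((2 - δ') * T) := by
    have h5 : Real.exp ((2 - δ) * T) ≤ Real.exp ((2 - δ') * T) := by
      apply Real.exp_le_exp.2
      apply mul_le_mul_of_nonneg_right _ (by linarith)
      linarith
    calc C * Real.exp ((2 - δ) * T) ≤ max C 0 * Real.exp ((2 - δ) * T) :=
          mul_le_mul_of_nonneg_right (le_max_left _ _) (Real.exp_pos _).le
      _ ≤ max C 0 * Real.exp ((2 - δ') * T) := mul_le_mul_of_nonneg_left h5 (le_max_right _ _)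
  have h6 : max C 0 * Real.exp ((2 - δ') * T) =
      max C 0 * Real.exp ((2 - δ') * A) * X ^ ((2 - δ') * κ) := by
    rw [Real.rpow_def_of_pos hX0, mul_assoc, ← Real.exp_add]
    congr 2
    rw [hT]
    ring
  have h7 : X ^ ((2 - δ') * κ) ≤ X ^ ((2 - δ') * κ + ε) :=
    Real.rpow_le_rpow_of_exponent_le hX (by linarith)
  calc ({x | x ∈ Fam κ c ∧ Real.exp (height x) ≤ X}.ncard : ℝ)
      ≤ max C 0 * Real.exp ((2 - δ') * T) := h3.trans h4
    _ = max C 0 * Real.exp ((2 - δ') * A) * X ^ ((2 - δ') * κ) := h6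
    _ ≤ max C 0 * Real.exp ((2 - δ') * A) * X ^ ((2 - δ') * κ + ε) :=
        mul_le_mul_of_nonneg_left h7 (mul_nonneg (le_max_right _ _) (Real.exp_pos _).le)

/-- the height `H(y) = exp h(y)` is in the window of length `2 x ^ (θ lam n)` around `β x ^ (lam n)` for some `n` -/
def InWindow (lam : ℕ → ℝ) (θ β x : ℝ) (y : AlgebraicClosure ℚ) : Prop :=
  ∃ n : ℕ, |Real.exp (height y) - β * x ^ lam n| ≤ x ^ (θ * lam n)

/-- **Theorem.** `counting y = N^(1)(0 + 1 + ∞, y)`, `logDisc y = d(y)`, `height y = h(y)`. Let `lam n / log n → ∞` and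
let `B` be a countable set of real numbers.
(1) There is `δ > 0` (which does not depend on `lam`, `B`) such that for all `κ > 0` and `θ < 1` there is a set `E` of
real numbers of Hausdorff dimension at most `(2 - δ) κ / (1 - θ)` such that for each `x > 1` outside `E`, each positive
`β` in `B` and each `c` only finitely many quadratic `y` with a height in the window of length `2 x ^ (θ lam n)` around
`β x ^ (lam n)` for some `n` satisfy `N^(1)(0 + 1 + ∞, y) + d(y) ≤ κ h(y) + c`.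
(2) For almost every real `x > 1`, all `κ > 0`, `θ ≤ 1 - 2 κ` and all positive `β` in `B` there is `C` such that ALL
quadratic `y` with a height in the window of length `2 x ^ (θ lam n)` around `β x ^ (lam n)` for some `n` satisfy
`κ h(y) ≤ N^(1)(0 + 1 + ∞, y) + d(y) + C`. -/
theorem result :
    (∃ δ : ℝ, 0 < δ ∧ ∀ lam : ℕ → ℝ, Tendsto (fun n : ℕ => lam n / Real.log n) atTop atTop →
      ∀ B : Set ℝ, B.Countable → ∀ κ θ : ℝ, 0 < κ → θ < 1 →
      ∃ E : Set ℝ, dimH E ≤ ENNReal.ofReal ((2 - δ) * κ / (1 - θ)) ∧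
        ∀ x : ℝ, 1 < x → x ∉ E → ∀ β ∈ B, 0 < β → ∀ c : ℝ,
          {y : AlgebraicClosure ℚ | Module.finrank ℚ ℚ⟮y⟯ = 2 ∧ InWindow lam θ β x y ∧
            counting y + logDisc y ≤ κ * height y + c}.Finite) ∧
    (∀ lam : ℕ → ℝ, Tendsto (fun n : ℕ => lam n / Real.log n) atTop atTop → ∀ B : Set ℝ, B.Countable →
      ∀ᵐ x : ℝ, 1 < x → ∀ κ θ : ℝ, 0 < κ → θ ≤ 1 - 2 * κ → ∀ β ∈ B, 0 < β →
      ∃ C : ℝ, ∀ y : AlgebraicClosure ℚ, Module.finrank ℚ ℚ⟮y⟯ = 2 → InWindow lam θ β x y →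
        κ * height y ≤ counting y + logDisc y + C) := by
  obtain ⟨δ, hδ, hδ1, hcount⟩ := count
  have hs : ∀ κ : ℝ, 0 < κ → 0 ≤ (2 - δ) * κ := fun κ hκ => mul_nonneg (by linarith) hκ.le
  refine ⟨⟨δ, hδ, fun lam hlam B hB κ θ hκ hθ => ?_⟩, fun lam hlam B hB => ?_⟩
  · obtain ⟨E, h1, h2⟩ := Pool.Agent.V11001.KM.family
      (fun x : AlgebraicClosure ℚ => Real.exp (height x)) hlam (hs κ hκ) hθ B hB (J := ℕ)
      (fun j => Fam κ j) (fun j ε hε => hcount κ hκ j (Nat.cast_nonneg j) ε hε)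
    refine ⟨E, h1, fun x hx hxE β hβ hβ0 c => ?_⟩
    obtain ⟨j, hj⟩ := exists_nat_ge c
    refine (h2 x hx hxE β hβ hβ0 j).subset ?_
    rintro y ⟨g1, g2, g3⟩
    exact ⟨⟨g1, by linarith⟩, g2⟩
  · have hall : ∀ q : ℚ, ∀ᵐ x : ℝ, 0 < (q : ℝ) → 1 < x → ∀ θ : ℝ, θ < 1 - (2 - δ) * (q : ℝ) →
        ∀ β ∈ B, 0 < β → ∀ j : ℕ, {y | y ∈ Fam q j ∧ ∃ n : ℕ,
          |Real.exp (height y) - β * x ^ lam n| ≤ x ^ (θ * lam n)}.Finite := by
      intro q
      by_cases hq : 0 < (q : ℝ)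
      · have h := Pool.Agent.V11001.KM.ae_family
          (fun x : AlgebraicClosure ℚ => Real.exp (height x)) hlam (hs q hq) B hB (J := ℕ)
          (fun j => Fam q j) (fun j ε hε => hcount q hq j (Nat.cast_nonneg j) ε hε)
        filter_upwards [h] with z hz _
        exact hz
      · exact Filter.Eventually.of_forall fun z h => absurd h hq
    rw [← MeasureTheory.ae_all_iff] at hall
    filter_upwards [hall] with x hx hx1 κ θ hκ hθ β hβ hβ0
    have h2δ : 0 < 2 - δ := by linarith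
    obtain ⟨q, hq1, hq2⟩ := exists_rat_btwn (show κ < (1 - θ) / (2 - δ) by
      rw [lt_div_iff₀ h2δ]
      nlinarith)
    have hq0 : 0 < (q : ℝ) := hκ.trans hq1
    have hfin := hx q hq0 hx1 θ (by
      rw [lt_div_iff₀ h2δ] at hq2
      linarith) β hβ hβ0 0
    obtain ⟨C, hC⟩ := Pool.Agent.V11001.KM.const_of_finite
      {y : AlgebraicClosure ℚ | Module.finrank ℚ ℚ⟮y⟯ = 2 ∧ InWindow lam θ β x y}
      (fun x => κ * height x - (counting x + logDisc x)) (hfin.subset (by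
        rintro x ⟨⟨h1, h2⟩, h4⟩
        have h5 : 0 < κ * height x - (counting x + logDisc x) := h4
        have h6 : κ * height x ≤ q * height x := mul_le_mul_of_nonneg_right hq1.le (height_nonneg x)
        refine ⟨⟨h1, ?_⟩, h2⟩
        push_cast
        linarith))
    refine ⟨C, fun y h1 h2 => ?_⟩
    have h8 : κ * height y - (counting y + logDisc y) ≤ C := hC y ⟨h1, h2⟩
    linarith

end Pool.Agent.Results.MP_44a246_nt.HeightsNearPowers
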