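import Mathlib
import Pool.Agent.Results.MP_44a246_nt.QuadraticPoints
import Pool.Agent.H107.MetricFam

/-!
# Vojta's truncated inequality for the quadratic approximations to almost every real number

`X` is the projective line over `ℚ`, `D = 0 + 1 + ∞`, `S` the archimedean place, `r = 2`. Let `ι` be an embedding of the
field of algebraic numbers in `ℂ`. For almost every real `z`, all `κ > 0` and `σ ≥ 2 κ` ALL quadratic numbers `x` with
`|ι x - z| ≤ H(x) ^ (-σ)` satisfy `κ h(x) ≤ N^(1)(D, x) + d(x) + C`; for example `κ = 3`, `σ = 6`.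
-/

set_option autoImplicit false

namespace Pool.Agent.Results.MP_44a246_nt.QuadraticNearAlmostEveryPoint

open NumberField IsDedekindDomain IntermediateField
open Pool.Agent.Results.MP_44a246_nt.QuadraticPoints (counting logDisc height Points numberField_adjoin)

lemma height_nonneg (x : AlgebraicClosure ℚ) : 0 ≤ height x := by
  haveI := numberField_adjoin x
  unfold Pool.Agent.Results.MP_44a246_nt.QuadraticPoints.height
  exact div_nonneg (Height.zero_le_logHeight₁ _) (Nat.cast_nonneg _)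

/-- the quadratic numbers with `N^(1)(D, x) + d(x) ≤ κ h(x) + c` -/
def Fam (κ c : ℝ) : Set (AlgebraicClosure ℚ) :=
  {x | Module.finrank ℚ ℚ⟮x⟯ = 2 ∧ counting x + logDisc x ≤ κ * height x + c}

lemma count : ∃ δ : ℝ, 0 < δ ∧ δ ≤ 1 ∧ ∀ κ : ℝ, 0 < κ → ∀ c : ℝ, 0 ≤ c → ∀ ε : ℝ, 0 < ε →
    ∃ C : ℝ, ∀ X : ℝ, 1 ≤ X → {x | x ∈ Fam κ c ∧ Real.exp (height x) ≤ X}.Finite ∧
      ({x | x ∈ Fam κ c ∧ Real.exp (height x) ≤ X}.ncard : ℝ) ≤ C * X ^ ((2 - δ) * κ + ε) := by
  obtain ⟨δ, hδ, C, hC⟩ := Pool.Agent.Results.MP_44a246_nt.QuadraticPoints.result 2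
  refine ⟨min δ 1, lt_min hδ one_pos, min_le_right _ _, fun κ hκ c hc ε hε => ?_⟩
  set δ' : ℝ := min δ 1 with hδ'
  have hδ2 : δ' ≤ δ := min_le_left _ _
  have hδ1 : δ' ≤ 1 := min_le_right _ _
  set A : ℝ := c + 1 + 1 / κ with hA
  have hA1 : 1 ≤ A := by
    have : 0 < 1 / κ := by positivity
    linarith
  have hA2 : 1 / κ ≤ A := by linarith
  refine ⟨max C 0 * Real.exp ((2 - δ') * A), fun X hX => ?_⟩
  have hX0 : 0 < X := by linarith
  have hlog : 0 ≤ Real.log X := Real.log_nonneg hX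
  set T : ℝ := κ * Real.log X + A with hT
  have hκl : 0 ≤ κ * Real.log X := mul_nonneg hκ.le hlog
  have hT1 : 1 ≤ T := by linarith
  have hT2 : 1 / κ ≤ T := by linarith
  have hT3 : Real.log X ≤ T ^ (2 : ℝ) := by
    have h1 : Real.log X ≤ T / κ := by
      rw [le_div_iff₀ hκ]
      linarith
    have h2 : T / κ ≤ T * T := by
      rw [div_eq_mul_one_div]
      exact mul_le_mul_of_nonneg_left hT2 (by linarith)
    rw [Real.rpow_two]
    nlinarith
  obtain ⟨h1, h2⟩ := hC T hT1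
  have hsub : {x | x ∈ Fam κ c ∧ Real.exp (height x) ≤ X} ⊆ Points T (T ^ (2 : ℝ)) := by
    rintro x ⟨⟨g1, g2⟩, g3⟩
    have g4 : height x ≤ Real.log X := (Real.le_log_iff_exp_le hX0).2 g3
    refine ⟨g1, ?_, g4.trans hT3⟩
    have g5 : κ * height x ≤ κ * Real.log X := mul_le_mul_of_nonneg_left g4 hκ.le
    have g6 : 0 < 1 / κ := by positivity
    linarith
  refine ⟨h1.subset hsub, ?_⟩
  have h3 : ({x | x ∈ Fam κ c ∧ Real.exp (height x) ≤ X}.ncard : ℝ) ≤ C * Real.exp ((2 - δ) * T) :=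
    (Nat.cast_le.2 (Set.ncard_le_ncard hsub h1)).trans h2
  have h4 : C * Real.exp ((2 - δ) * T) ≤ max C 0 * Real.exp ((2 - δ') * T) := by
    have h5 : Real.exp ((2 - δ) * T) ≤ Real.exp ((2 - δ') * T) := by
      apply Real.exp_le_exp.2
      apply mul_le_mul_of_nonneg_right _ (by linarith)
      linarith
    calc C * Real.exp ((2 - δ) * T) ≤ max C 0 * Real.exp ((2 - δ) * T) :=
          mul_le_mul_of_nonneg_right (le_max_left _ _) (Real.exp_pos _).le
      _ ≤ max C 0 * Real.exp ((2 - δ') * T) := mul_le_mul_of_nonneg_left h5 (le_max_right _ _)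
  have h6 : max C 0 * Real.exp ((2 - δ') * T) =
      max C 0 * Real.exp ((2 - δ') * A) * X ^ ((2 - δ') * κ) := by
    rw [Real.rpow_def_of_pos hX0, mul_assoc, ← Real.exp_add]
    congr 2
    rw [hT]
    ring
  have h7 : X ^ ((2 - δ') * κ) ≤ X ^ ((2 - δ') * κ + ε) :=
    Real.rpow_le_rpow_of_exponent_le hX (by linarith)
  calc ({x | x ∈ Fam κ c ∧ Real.exp (height x) ≤ X}.ncard : ℝ)
      ≤ max C 0 * Real.exp ((2 - δ') * T) := h3.trans h4
    _ = max C 0 * Real.exp ((2 - δ') * A) * X ^ ((2 - δ') * κ) := h6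
    _ ≤ max C 0 * Real.exp ((2 - δ') * A) * X ^ ((2 - δ') * κ + ε) :=
        mul_le_mul_of_nonneg_left h7 (mul_nonneg (le_max_right _ _) (Real.exp_pos _).le)

lemma rpow_exp (a σ : ℝ) : (Real.exp a) ^ (-σ) = Real.exp (-(σ * a)) := by
  rw [← Real.exp_mul]
  congr 1
  ring

/-- **Theorem.** `counting x = N^(1)(0 + 1 + ∞, x)`, `logDisc x = d(x)`, `height x = h(x)`.
(1) There is `δ > 0` such that for every map `φ` of the algebraic numbers to a metric space `M` and all `κ > 0`, `σ > 0`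
there is a set `E` of points of `M` of Hausdorff dimension at most `(2 - δ) κ / σ` such that for each `z` outside `E`
and each `c` only finitely many quadratic `x` with `dist (φ x) z ≤ exp (- σ h(x))` satisfy
`N^(1)(0 + 1 + ∞, x) + d(x) ≤ κ h(x) + c`.
(2) For every embedding `ι` of the algebraic numbers in `ℂ` and almost every real `z`: for all `κ > 0` and `σ ≥ 2 κ`
there is `C` such that ALL quadratic `x` with `|ι x - z| ≤ exp (- σ h(x))` satisfy
`κ h(x) ≤ N^(1)(0 + 1 + ∞, x) + d(x) + C`. -/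
theorem result :
    (∃ δ : ℝ, 0 < δ ∧ ∀ (M : Type) [MetricSpace M] (φ : AlgebraicClosure ℚ → M) (κ σ : ℝ), 0 < κ → 0 < σ →
      ∃ E : Set M, dimH E ≤ ENNReal.ofReal ((2 - δ) * κ / σ) ∧ ∀ z ∉ E, ∀ c : ℝ,
        {x : AlgebraicClosure ℚ | Module.finrank ℚ ℚ⟮x⟯ = 2 ∧
          dist (φ x) z ≤ Real.exp (-(σ * height x)) ∧
          counting x + logDisc x ≤ κ * height x + c}.Finite) ∧
    (∀ ι : AlgebraicClosure ℚ →+* ℂ, ∀ᵐ z : ℝ, ∀ κ σ : ℝ, 0 < κ → 2 * κ ≤ σ →
      ∃ C : ℝ, ∀ x : AlgebraicClosure ℚ, Module.finrank ℚ ℚ⟮x⟯ = 2 →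
        ‖ι x - z‖ ≤ Real.exp (-(σ * height x)) →
        κ * height x ≤ counting x + logDisc x + C) := by
  obtain ⟨δ, hδ, hδ1, hcount⟩ := count
  have hs : ∀ κ : ℝ, 0 < κ → 0 ≤ (2 - δ) * κ := fun κ hκ => mul_nonneg (by linarith) hκ.le
  refine ⟨⟨δ, hδ, fun M _ φ κ σ hκ hσ => ?_⟩, fun ι => ?_⟩
  · obtain ⟨E, h1, h2⟩ := Pool.Agent.H107.ME.dim_family φ
      (fun x : AlgebraicClosure ℚ => Real.exp (height x))
      (fun x => Real.one_le_exp (height_nonneg x)) (hs κ hκ) hσ (J := ℕ)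
      (fun j => Fam κ j) (fun j ε hε => hcount κ hκ j (Nat.cast_nonneg j) ε hε)
    refine ⟨E, h1, fun z hz c => ?_⟩
    obtain ⟨j, hj⟩ := exists_nat_ge c
    refine (h2 z hz j).subset ?_
    rintro x ⟨g1, g2, g3⟩
    refine ⟨⟨g1, by linarith⟩, ?_⟩
    rw [rpow_exp]
    exact g2
  · have hall : ∀ q : ℚ, ∀ᵐ z : ℝ, 0 < (q : ℝ) → ∀ σ : ℝ, (2 - δ) * (q : ℝ) < σ → ∀ j : ℕ,
        {x | x ∈ Fam q j ∧ |(ι x).re - z| ≤ (Real.exp (height x)) ^ (-σ)}.Finite := by
      intro q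
      by_cases hq : 0 < (q : ℝ)
      · have h := Pool.Agent.H107.ME.ae_family (fun x : AlgebraicClosure ℚ => (ι x).re)
          (fun x : AlgebraicClosure ℚ => Real.exp (height x))
          (fun x => Real.one_le_exp (height_nonneg x)) (hs q hq) (J := ℕ)
          (fun j => Fam q j) (fun j ε hε => hcount q hq j (Nat.cast_nonneg j) ε hε)
        filter_upwards [h] with z hz _
        exact hz
      · exact Filter.Eventually.of_forall fun z h => absurd h hq
    rw [← MeasureTheory.ae_all_iff] at hall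
    filter_upwards [hall] with z hz κ σ hκ hσ
    have h2δ : 0 < 2 - δ := by linarith
    obtain ⟨q, hq1, hq2⟩ := exists_rat_btwn (show κ < σ / (2 - δ) by
      rw [lt_div_iff₀ h2δ]
      nlinarith)
    have hq0 : 0 < (q : ℝ) := hκ.trans hq1
    have hfin := hz q hq0 σ (by
      rw [lt_div_iff₀ h2δ] at hq2
      linarith) 0
    obtain ⟨C, hC⟩ := Pool.Agent.H107.ME.const_of_finite
      {x : AlgebraicClosure ℚ | Module.finrank ℚ ℚ⟮x⟯ = 2 ∧ ‖ι x - z‖ ≤ Real.exp (-(σ * height x))}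
      (fun x => κ * height x - (counting x + logDisc x)) (hfin.subset (by
        rintro x ⟨⟨h1, h2⟩, h4⟩
        have h5 : 0 < κ * height x - (counting x + logDisc x) := h4
        have h6 : κ * height x ≤ q * height x := mul_le_mul_of_nonneg_right hq1.le (height_nonneg x)
        refine ⟨⟨h1, ?_⟩, ?_⟩
        · push_cast
          linarith
        · have h7 : |(ι x - (z : ℂ)).re| ≤ ‖ι x - z‖ := Complex.abs_re_le_norm _
          rw [Complex.sub_re, Complex.ofReal_re] at h7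
          rw [rpow_exp]
          exact h7.trans h2))
    refine ⟨C, fun x h1 h2 => ?_⟩
    have h8 : κ * height x - (counting x + logDisc x) ≤ C := hC x ⟨h1, h2⟩
    linarith

end Pool.Agent.Results.MP_44a246_nt.QuadraticNearAlmostEveryPoint
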